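import Pool.Agent.H525.EX.Stm8

set_option autoImplicit false
set_option linter.unusedSectionVars false

/-!
# Project EX (helper525), part VIII: the normalization with a weight (`S_gn3`)
-/

namespace Pool.Agent.H36.EX

open Polynomial UniqueFactorizationMonoid
open Pool.Agent.H985.Chow (mob)
open Pool.Agent.H525.QF Pool.Agent.H525.EX
open scoped Classical

section
variable {K : Type} [Field K] [Fintype K]

theorem XX_monic : (X ^ 2 + X : K[X]).Monic ∧ (X ^ 2 + X : K[X]).natDegree = 2 := by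
  have hlt : (X : K[X]).degree < (X ^ 2 : K[X]).degree := by
    rw [degree_X, degree_X_pow]
    exact_mod_cast Nat.one_lt_two
  exact ⟨(monic_X_pow 2).add_of_left hlt, by
    rw [natDegree_add_eq_left_of_degree_lt hlt, natDegree_X_pow]⟩

theorem F2_two (m : ℕ) (v : K[X] × K[X]) (h1 : v.1 ∈ mon K m) (h2 : v.2 ∈ lt K m) :
    (F2 v).Monic ∧ (F2 v).natDegree = 4 * m := by
  rw [mem_mon] at h1
  rw [mem_lt] at h2
  have hm4 : (v.1 ^ 4).Monic := h1.1.pow 4
  have hd4 : (v.1 ^ 4).natDegree = 4 * m := by rw [h1.1.natDegree_pow, h1.2]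
  have hlt : ((X ^ 2 + X) * v.2 ^ 4).degree < (v.1 ^ 4).degree := by
    by_cases h0 : v.2 = 0
    · rw [h0, zero_pow (by norm_num), mul_zero, degree_zero, bot_lt_iff_ne_bot]
      intro h3
      exact hm4.ne_zero (degree_eq_bot.1 h3)
    · have h3 : v.2.natDegree < m := by
        rw [degree_eq_natDegree h0] at h2
        exact_mod_cast h2
      have h4 : (X ^ 2 + X) * v.2 ^ 4 ≠ 0 := mul_ne_zero XX_monic.1.ne_zero (pow_ne_zero 4 h0)
      rw [degree_eq_natDegree h4, degree_eq_natDegree hm4.ne_zero, hd4,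
        natDegree_mul XX_monic.1.ne_zero (pow_ne_zero 4 h0), natDegree_pow, XX_monic.2]
      have : 2 + 4 * v.2.natDegree < 4 * m := by omega
      exact_mod_cast this
  unfold F2
  exact ⟨hm4.add_of_left hlt, by rw [natDegree_add_eq_left_of_degree_lt hlt, hd4]⟩

theorem F2_one (m : ℕ) (v : K[X] × K[X]) (h1 : v.1 ∈ lt K (m + 1)) (h2 : v.2 ∈ mon K m) :
    (F2 v).Monic ∧ (F2 v).natDegree = 4 * m + 2 := by
  rw [mem_mon] at h2
  rw [mem_lt] at h1
  have hm4 : ((X ^ 2 + X) * v.2 ^ 4).Monic := XX_monic.1.mul (h2.1.pow 4)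
  have hd4 : ((X ^ 2 + X) * v.2 ^ 4).natDegree = 4 * m + 2 := by
    rw [XX_monic.1.natDegree_mul (h2.1.pow 4), h2.1.natDegree_pow, h2.2, XX_monic.2]
    ring
  have hlt : (v.1 ^ 4).degree < ((X ^ 2 + X) * v.2 ^ 4).degree := by
    by_cases h0 : v.1 = 0
    · rw [h0, zero_pow (by norm_num), degree_zero, bot_lt_iff_ne_bot]
      intro h3
      exact hm4.ne_zero (degree_eq_bot.1 h3)
    · have h3 : v.1.natDegree < m + 1 := by
        rw [degree_eq_natDegree h0] at h1
        exact_mod_cast h1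
      rw [degree_eq_natDegree (pow_ne_zero 4 h0), degree_eq_natDegree hm4.ne_zero, hd4,
        natDegree_pow]
      have : 4 * v.1.natDegree < 4 * m + 2 := by omega
      exact_mod_cast this
  unfold F2
  exact ⟨hm4.add_of_right hlt, by rw [natDegree_add_eq_right_of_degree_lt hlt, hd4]⟩

theorem mon_zero (p : K[X]) : p ∈ mon K 0 ↔ p = 1 := by
  rw [mem_mon]
  constructor
  · rintro ⟨h1, h2⟩
    exact h1.natDegree_eq_zero.1 h2
  · rintro rfl
    exact ⟨monic_one, natDegree_one⟩

theorem sum_shift (f : ℤ → ℝ) (g : ℕ → ℝ) (C : ℝ) (N : ℕ)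
    (h : ∀ k : ℕ, f ((k : ℤ) - N) = C * g k) :
    ∑ e ∈ Finset.Icc (-(N : ℤ)) (3 * N + 2), f e = C * ∑ k ∈ Finset.range (4 * N + 3), g k := by
  rw [Finset.mul_sum]
  symm
  apply Finset.sum_bij (fun (k : ℕ) _ => (k : ℤ) - N)
  · intro k hk
    have := Finset.mem_range.1 hk
    rw [Finset.mem_Icc]
    omega
  · intro a _ b _ hab
    have : (a : ℤ) - N = (b : ℤ) - N := hab
    omega
  · intro e he
    rw [Finset.mem_Icc] at he
    exact ⟨(e + N).toNat, by rw [Finset.mem_range]; omega, by omega⟩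
  · intro k hk
    exact (h k).symm

theorem sm0 (ω : K → ℝ) (h : K[X] → ℕ → ℝ[X]) (N : ℕ) :
    ∑ e ∈ Finset.Icc (-(N : ℤ)) (3 * N + 2), g0 ω h N e =
      ((Fintype.card K : ℝ) ^ N)⁻¹ * ∑ k ∈ Finset.range (4 * N + 3), G0 ω h N k := by
  refine sum_shift _ _ _ _ fun k => ?_
  unfold g0
  rw [if_pos ⟨by omega, by omega⟩]
  have e1 : ((N : ℤ)).toNat = N := by omega
  have e2 : ((N : ℤ) + ((k : ℤ) - N)).toNat = k := by omega
  rw [e1, e2]

theorem sm1 (ω : K → ℝ) (h : K[X] → ℕ → ℝ[X]) (N : ℕ) :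
    ∑ e ∈ Finset.Icc (-(N : ℤ)) (3 * N + 2), g1 ω h N e =
      ((Fintype.card K : ℝ) ^ (N + 1))⁻¹ * ∑ k ∈ Finset.range (4 * N + 3), G1 ω h N k := by
  refine sum_shift _ _ _ _ fun k => ?_
  unfold g1
  rw [if_pos ⟨by omega, by omega⟩]
  have e1 : ((N : ℤ)).toNat = N := by omega
  have e2 : ((N : ℤ) + ((k : ℤ) - N)).toNat = k := by omega
  rw [e1, e2]

end

theorem t_gn3 : Pool.Agent.H525.EX.S_gn3 := by
  intro href hev hpar K _ _ _ κ hκ h hR hV ω
  refine ⟨fun n => ?_, fun n => ?_⟩
  · rcases lt_or_ge n 0 with hn | hn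
    · rw [if_neg (by omega), Finset.Icc_eq_empty (by omega), Finset.sum_empty]
    obtain ⟨N, rfl⟩ : ∃ N : ℕ, n = (N : ℤ) := ⟨n.toNat, by omega⟩
    rw [sm0]
    have h1 : ∑ k ∈ Finset.range (4 * N + 3), G0 ω h N k =
        ∑ j ∈ Finset.range (N + 1), ∑ G ∈ mon K j, ∑ v ∈ cII K (N - j),
          ω (v.2.coeff (N - j - 1)) * (if G ^ 2 * F2 v = 1 then (1 : ℝ) else 0) := by
      unfold G0
      rw [Finset.sum_comm]
      apply Finset.sum_congr rfl
      intro j hj
      have hj' := Finset.mem_range.1 hj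
      rw [Finset.sum_comm]
      apply Finset.sum_congr rfl
      intro G hG
      have hG' := mem_mon.1 hG
      rw [Finset.sum_comm]
      apply Finset.sum_congr rfl
      intro v hv
      unfold cII at hv
      rw [Finset.mem_filter, Finset.mem_product] at hv
      obtain ⟨⟨hv1, hv2⟩, hv3⟩ := hv
      obtain ⟨hF1, hF2⟩ := F2_two (N - j) v hv1 hv2
      have hsq := ((hpar K κ hκ (N - j) v hv3).2 hv1 hv2).1
      have hdeg := (href K ((-1) ^ κ) h hR G (F2 v) hG'.1 hF1 hsq).1
      rw [hG'.2, hF2] at hdeg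
      have hval := (hev K h hV).1 (G ^ 2 * F2 v) ((hG'.1.pow 2).mul hF1)
      rw [← hval, eval_eq_sum_range' (n := 4 * N + 3) (by omega), Finset.mul_sum]
      apply Finset.sum_congr rfl
      intro k _
      rw [one_pow, mul_one]
    rw [h1]
    by_cases hN : N = 0
    · subst hN
      rw [if_pos (by norm_num), pow_zero, inv_one, one_mul, zero_add, Finset.sum_range_one]
      have e1 : mon K 0 = {1} := by
        ext p
        rw [mon_zero, Finset.mem_singleton]
      have e2 : cII K 0 = {((1 : K[X]), (0 : K[X]))} := by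
        ext v
        unfold cII
        rw [Finset.mem_filter, Finset.mem_product, Finset.mem_singleton, mon_zero, mem_lt]
        constructor
        · rintro ⟨⟨h2, h3⟩, _⟩
          have : v.2 = 0 := by
            rw [← degree_eq_bot]
            by_contra h4
            have h5 : v.2 ≠ 0 := fun h6 => h4 (by rw [h6, degree_zero])
            rw [degree_eq_natDegree h5] at h3
            have h7 : v.2.natDegree < 0 := by exact_mod_cast h3
            omega
          exact Prod.ext h2 this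
        · rintro rfl
          refine ⟨⟨rfl, ?_⟩, isCoprime_one_left⟩
          rw [degree_zero]
          exact bot_lt_iff_ne_bot.2 (by simp)
      rw [e1, Finset.sum_singleton]
      simp only [Nat.sub_zero]
      rw [e2, Finset.sum_singleton, if_pos, mul_one, coeff_zero]
      unfold F2
      simp
    · have hN' : ¬ ((N : ℤ) = 0) := by omega
      rw [if_neg hN']
      rw [Finset.sum_eq_zero, mul_zero]
      intro j hj
      apply Finset.sum_eq_zero
      intro G hG
      apply Finset.sum_eq_zero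
      intro v hv
      have hj' := Finset.mem_range.1 hj
      have hG' := mem_mon.1 hG
      unfold cII at hv
      rw [Finset.mem_filter, Finset.mem_product] at hv
      obtain ⟨⟨hv1, hv2⟩, _⟩ := hv
      obtain ⟨hF1, hF2⟩ := F2_two (N - j) v hv1 hv2
      rw [if_neg, mul_zero]
      intro h1
      have h2 := congrArg natDegree h1
      rw [(hG'.1.pow 2).natDegree_mul hF1, hG'.1.natDegree_pow, hG'.2, hF2, natDegree_one] at h2
      omega
  · rcases lt_or_ge n 0 with hn | hn
    · rw [Finset.Icc_eq_empty (by omega), Finset.sum_empty]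
    obtain ⟨N, rfl⟩ : ∃ N : ℕ, n = (N : ℤ) := ⟨n.toNat, by omega⟩
    rw [sm1]
    have h1 : ∑ k ∈ Finset.range (4 * N + 3), G1 ω h N k = 0 := by
      unfold G1
      rw [Finset.sum_comm]
      apply Finset.sum_eq_zero
      intro j hj
      have hj' := Finset.mem_range.1 hj
      rw [Finset.sum_comm]
      apply Finset.sum_eq_zero
      intro G hG
      have hG' := mem_mon.1 hG
      rw [Finset.sum_comm]
      apply Finset.sum_eq_zero
      intro v hv
      unfold cI at hv
      rw [Finset.mem_filter, Finset.mem_product] at hv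
      obtain ⟨⟨hv1, hv2⟩, hv3⟩ := hv
      obtain ⟨hF1, hF2⟩ := F2_one (N - j) v hv1 hv2
      have hsq := ((hpar K κ hκ (N - j) v hv3).1 hv1 hv2).1
      have hdeg := (href K ((-1) ^ κ) h hR G (F2 v) hG'.1 hF1 hsq).1
      rw [hG'.2, hF2] at hdeg
      have hval := (hev K h hV).1 (G ^ 2 * F2 v) ((hG'.1.pow 2).mul hF1)
      rw [if_neg, eval_eq_sum_range' (n := 4 * N + 3) (by omega)] at hval
      · rw [← Finset.mul_sum]
        have h5 : ∑ k ∈ Finset.range (4 * N + 3), (W h (G ^ 2 * F2 v)).coeff k = 0 := by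
          rw [← hval]
          apply Finset.sum_congr rfl
          intro k _
          rw [one_pow, mul_one]
        rw [h5, mul_zero]
      · intro h1
        have h2 := congrArg natDegree h1
        rw [(hG'.1.pow 2).natDegree_mul hF1, hG'.1.natDegree_pow, hG'.2, hF2, natDegree_one] at h2
        omega
    rw [h1, mul_zero]

end Pool.Agent.H36.EX
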